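import Pool.Agent.Lib.MP_a74260_al.Main

namespace Pool.Agent.Results.MP_a74260_al.IntReflexive

open Pool.Agent.Lib.MP_a74260_al

theorem result : ∃ S : Set (ℕ → Multiplicative ℤ), (∀ g ≠ 1, ∃ χ ∈ sSet S, χ g ≠ 1) ∧
    @IsReflexive (Multiplicative ℤ) _ (tauB S) := by
  have hsep : ∀ g : ℤ, g ≠ 0 → ∃ χ ∈ HH, χ g ≠ 0 := fun g hg =>
    ⟨cz (dd 1), ⟨_, dd_one_mem, rfl⟩, dd_ne hg⟩
  refine ⟨toMul' SS, fun g hg => ?_, ?_⟩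
  · obtain ⟨χ, hχ, h⟩ := hsep g.toAdd hg
    exact ⟨ex χ, ex_mem_sSet.2 hχ, fun h' => h (ee.injective (h'.trans ee_zero.symm))⟩
  · rw [tauB_toMul]
    exact @isReflexive ℤ _ _ (tau _) _ rfl hsep noSeq onlyEval

end Pool.Agent.Results.MP_a74260_al.IntReflexive
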